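import Mathlib
import Pool.Agent.Helper332.Boolean3

set_option autoImplicit false

namespace Pool.Agent.Results.MP_36bcbe_gt.StatementA

open TopologicalSpace

/-- Statement (A), without any set-theoretic hypothesis: there are pseudocompact Hausdorff abelian
topological groups `G` and `H`, all of whose closed subgroups are separable, such that `G × H` has
a closed subgroup that is σ-compact and not separable. -/
theorem result :
    ∃ (G : Type) (_ : AddCommGroup G) (_ : TopologicalSpace G)
      (H : Type) (_ : AddCommGroup H) (_ : TopologicalSpace H),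
      (IsTopologicalAddGroup G ∧ T2Space G ∧ (∀ f : G → ℝ, Continuous f → ∃ C, ∀ x, |f x| ≤ C) ∧
        ∀ K : AddSubgroup G, IsClosed (K : Set G) → SeparableSpace K) ∧
      (IsTopologicalAddGroup H ∧ T2Space H ∧ (∀ f : H → ℝ, Continuous f → ∃ C, ∀ x, |f x| ≤ C) ∧
        ∀ K : AddSubgroup H, IsClosed (K : Set H) → SeparableSpace K) ∧
      ∃ L : AddSubgroup (G × H), IsClosed (L : Set (G × H)) ∧ IsSigmaCompact (L : Set (G × H)) ∧
        ¬ SeparableSpace L :=
  Pool.Agent.Helper332.Boolean.statement_A

end Pool.Agent.Results.MP_36bcbe_gt.StatementA
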